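import Pool.Agent.PLY.HgtG
import Pool.Agent.PLY.Ctr
import Pool.Agent.PLR.Hgt2
import Pool.Agent.PLR.Aff2
import Pool.Agent.NDE.NatM
import Pool.Agent.NDE.Ncd

/-!
# MP_63749c_nt: almost all rational maps, all finite sets of points

`K` is a number field and `φ = [F_0 : F_1]` a rational map of degree `d ≥ 2` of the projective line
over `K`, given by two forms of degree `d` without a common zero.  For a finite set `Γ` of points,
`goodPrimes F Γ` is the set `S` of the primes of good reduction modulo which no point of `Γ` is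
periodic; density is lower natural density.  `AllSets F` says that `S` has positive density for all
finite sets `Γ` of nonperiodic points.

1. `AllSets` holds for 100 per cent of the rational maps `g/h` of degree `d`, where `g` and `h` run
   over all polynomials of degree at most `d` over `K`, both ordered by the height of the
   coefficients.
2. For every fixed denominator `h ≠ 0` of degree at most `d`, `AllSets` holds for 100 per cent of
   the maps `g/h`; in particular (`h = 1`) for 100 per cent of the polynomials of degree `d`.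
3. `AllSets F` holds if, modulo one prime `v` (of bad reduction), `F_1` vanishes and `F_0` has no
   zero on the projective line over the residue field.
-/

set_option autoImplicit false

open IsDedekindDomain NumberField
open scoped WithZero

namespace Pool.Agent.Results.MP_63749c_nt.AlmostAllMaps

/-- A pair of polynomials in two variables. -/
abbrev Pair (A : Type) [CommRing A] : Type := Fin 2 → MvPolynomial (Fin 2) A

/-- The map `x ↦ (F_0(x), F_1(x))`. -/
noncomputable def app {A : Type} [CommRing A] (F : Pair A) (x : Fin 2 → A) : Fin 2 → A :=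
  fun i => MvPolynomial.eval x (F i)

/-- `F` is a rational map of degree `d`: a pair of forms of degree `d` without a common zero over
the algebraic closure other than `0`. -/
def IsRat {K : Type} [Field K] (d : ℕ) (F : Pair K) : Prop :=
  (∀ i, (F i).IsHomogeneous d) ∧ ∀ x : Fin 2 → AlgebraicClosure K,
    app (fun i => MvPolynomial.map (algebraMap K (AlgebraicClosure K)) (F i)) x = 0 → x = 0

/-- The points of the projective line over `K`. -/
abbrev Pt (K : Type) [Field K] : Type := Projectivization K (Fin 2 → K)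

/-- The determinant of two vectors. -/
def det {A : Type} [CommRing A] (x y : Fin 2 → A) : A := x 0 * y 1 - x 1 * y 0

/-- `γ` is a periodic point of `F`. -/
def Periodic {K : Type} [Field K] (F : Pair K) (γ : Pt K) : Prop :=
  ∃ n : ℕ, 0 < n ∧ det ((app F)^[n] γ.rep) γ.rep = 0

/-- The size of a vector with respect to the valuation `v`. -/
def size {K : Type} [Field K] (v : Valuation K ℤᵐ⁰) (x : Fin 2 → K) : ℤᵐ⁰ :=
  max (v (x 0)) (v (x 1))

/-- `γ` is periodic modulo `v`: for some `n ≥ 1` the points `F^n(γ)` and `γ` coincide modulo `v`,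
that is, the determinant of representatives is smaller than the product of their sizes. -/
def PeriodicMod {K : Type} [Field K] (v : Valuation K ℤᵐ⁰) (F : Pair K) (γ : Pt K) : Prop :=
  ∃ n : ℕ, 0 < n ∧
    v (det ((app F)^[n] γ.rep) γ.rep) < size v ((app F)^[n] γ.rep) * size v γ.rep

/-- All coefficients are integral at `v`. -/
def Integral {K : Type} [Field K] (v : Valuation K ℤᵐ⁰) (F : Pair K) : Prop :=
  ∀ i m, v ((F i).coeff m) ≤ 1

/-- `F` has good reduction at `v`: the coefficients are integral at `v`, and powers of the variables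
are combinations of `F_0` and `F_1` with coefficients integral at `v`. -/
def GoodAt {K : Type} [Field K] (v : Valuation K ℤᵐ⁰) (F : Pair K) : Prop :=
  Integral v F ∧ ∃ e : ℕ, ∀ j, ∃ G : Pair K, Integral v G ∧
    ∑ i, G i * F i = MvPolynomial.X j ^ e

/-- The primes of good reduction modulo which no point of `Γ` is periodic. -/
def goodPrimes {K : Type} [Field K] [NumberField K] (F : Pair K) (Γ : Set (Pt K)) :
    Set (HeightOneSpectrum (𝓞 K)) :=
  {v | GoodAt (v.valuation K) F ∧ ∀ γ ∈ Γ, ¬ PeriodicMod (v.valuation K) F γ}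

/-- Positive lower natural density: for some `c > 0` and all large `x`, at least a proportion of `c`
of the primes of norm at most `x` lie in `S`. -/
def PositiveDensity {K : Type} [Field K] [NumberField K]
    (S : Set (HeightOneSpectrum (𝓞 K))) : Prop :=
  ∃ c : ℝ, 0 < c ∧ ∃ X₀ : ℝ, ∀ x : ℝ, X₀ ≤ x →
    c * ({v : HeightOneSpectrum (𝓞 K) | (Ideal.absNorm v.asIdeal : ℝ) ≤ x}.ncard : ℝ) ≤
      ({v : HeightOneSpectrum (𝓞 K) | (Ideal.absNorm v.asIdeal : ℝ) ≤ x ∧ v ∈ S}.ncard : ℝ)

/-- For all finite sets of nonperiodic points the set of primes has positive density. -/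
def AllSets {K : Type} [Field K] [NumberField K] (F : Pair K) : Prop :=
  ∀ Γ : Set (Pt K), Γ.Finite → (∀ γ ∈ Γ, ¬ Periodic F γ) → PositiveDensity (goodPrimes F Γ)

/-- `Q` holds for 100 per cent of the `x`, ordered by `h`. -/
def AlmostAll {S : Type} (h : S → ℝ) (Q : S → Prop) : Prop :=
  (∀ B : ℝ, {x | h x ≤ B}.Finite) ∧
    Filter.Tendsto (fun B : ℝ => ({x | h x ≤ B ∧ Q x}.ncard : ℝ) / ({x | h x ≤ B}.ncard : ℝ))
      Filter.atTop (nhds 1)

/-- The form of degree `d` with the coefficients `a`: the homogenised polynomial `∑_j a_j x^j`. -/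
noncomputable def form {K : Type} [Field K] {d : ℕ} (a : Fin (d + 1) → K) :
    MvPolynomial (Fin 2) K :=
  ∑ j : Fin (d + 1), MvPolynomial.C (a j) * MvPolynomial.X 0 ^ (j : ℕ) *
    MvPolynomial.X 1 ^ (d - (j : ℕ))

/-- The height of a polynomial with the coefficients `a`: the height of the point `(1 : a)`. -/
noncomputable def height {K : Type} [Field K] [NumberField K] {d : ℕ} (a : Fin (d + 1) → K) : ℝ :=
  Height.mulHeight (Fin.cons 1 a : Fin (d + 1 + 1) → K)

/-! ### proofs -/

section

variable {K : Type} [Field K]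

open Classical in
/-- the representatives -/
noncomputable def reps {Γ : Set (Pt K)} (h : Γ.Finite) : Finset (Fin 2 → K) :=
  h.toFinset.image Projectivization.rep

theorem mem_reps {Γ : Set (Pt K)} (h : Γ.Finite) {x : Fin 2 → K} :
    x ∈ reps h ↔ ∃ γ ∈ Γ, γ.rep = x := by
  unfold reps
  simp only [Finset.mem_image, Set.Finite.mem_toFinset]

theorem reps_ne {Γ : Set (Pt K)} (h : Γ.Finite) : ∀ x ∈ reps h, x ≠ 0 := by
  intro x hx
  obtain ⟨γ, -, rfl⟩ := (mem_reps h).1 hx
  exact γ.rep_nonzero

variable [NumberField K]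

theorem goodPrimes_eq (F : Pair K) {Γ : Set (Pt K)} (h : Γ.Finite) :
    goodPrimes F Γ = Pool.Agent.AAP.SP F (reps h) := by
  ext v
  constructor
  · rintro ⟨h1, h2⟩
    refine ⟨h1, fun x hx => ?_⟩
    obtain ⟨γ, hγ, rfl⟩ := (mem_reps h).1 hx
    exact h2 γ hγ
  · rintro ⟨h1, h2⟩
    exact ⟨h1, fun γ hγ => h2 γ.rep ((mem_reps h).2 ⟨γ, hγ, rfl⟩)⟩

/-- one good prime suffices -/
theorem of_nonempty {d : ℕ} (hd : 2 ≤ d) {F : Pair K} (hF : IsRat d F) {Γ : Set (Pt K)}
    (h : Γ.Finite) (hne : (goodPrimes F Γ).Nonempty) : PositiveDensity (goodPrimes F Γ) := by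
  obtain ⟨v, hv⟩ := hne
  rw [goodPrimes_eq F h] at hv ⊢
  exact (Pool.Agent.AAP.nat_of_mem hd hF (reps h) (reps_ne h) v hv).ncard

theorem of_posDens {d : ℕ} (hd : 2 ≤ d) {F : Pair K} (hF : IsRat d F) {Γ : Set (Pt K)}
    (h : Γ.Finite) (hp : Pool.Agent.TameArb.PosDens (Pool.Agent.AAP.SP F (reps h))) :
    PositiveDensity (goodPrimes F Γ) := by
  refine of_nonempty hd hF h ?_
  rw [goodPrimes_eq F h]
  exact hp.infinite.nonempty

theorem of_gd {d : ℕ} (hd : 2 ≤ d) {F : Pair K} (h : Pool.Agent.PLY.Gd d F) :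
    IsRat d F ∧ AllSets F := by
  refine ⟨h.1, fun Γ hΓ hnp => of_posDens hd h.1 hΓ (h.2 (reps hΓ) fun x hx => ?_)⟩
  obtain ⟨γ, hγ, rfl⟩ := (mem_reps hΓ).1 hx
  exact ⟨γ.rep_nonzero, hnp γ hγ⟩

end

theorem result (K : Type) [Field K] [NumberField K] (d : ℕ) (hd : 2 ≤ d) :
    AlmostAll (fun a : Fin 2 → Fin (d + 1) → K => max (height (a 0)) (height (a 1)))
      (fun a => IsRat d (fun i => form (a i)) ∧ AllSets fun i => form (a i)) ∧
    (∀ h : MvPolynomial (Fin 2) K, h.IsHomogeneous d → h ≠ 0 →
      AlmostAll (fun a : Fin (d + 1) → K => height a)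
        fun a => IsRat d ![form a, h] ∧ AllSets ![form a, h]) ∧
    (∀ F : Pair K, IsRat d F → ∀ v : HeightOneSpectrum (𝓞 K), Integral (v.valuation K) F →
      (∀ m, v.valuation K ((F 1).coeff m) < 1) →
      (∀ x : Fin 2 → K, size (v.valuation K) x = 1 → v.valuation K (app F x 0) = 1) →
      AllSets F) := by
  refine ⟨?_, fun h hh h0 => ?_, fun F hF v hI hF1 hF0 => ?_⟩
  · have hset : ∀ B : ℝ, {a : Fin 2 → Fin (d + 1) → K | max (height (a 0)) (height (a 1)) ≤ B} =
        {a | ∀ i, height (a i) ≤ B} := by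
      intro B
      ext a
      rw [Set.mem_ofPred_eq, Set.mem_ofPred_eq, Fin.forall_fin_two, max_le_iff]
    have hfin : ∀ B : ℝ,
        {a : Fin 2 → Fin (d + 1) → K | max (height (a 0)) (height (a 1)) ≤ B}.Finite := by
      intro B
      rw [hset]
      exact (Set.Finite.pi' fun _ => Pool.Agent.HFW.aff_finite B)
    refine ⟨hfin, Pool.Agent.HFW.tendsto_of_den _ _ hfin fun ε hε => ?_⟩
    obtain ⟨B₀, h1⟩ := Pool.Agent.PLR.height_rat K hd ε hε
    refine ⟨B₀, fun B hB => ?_⟩
    have h2 := h1 B hB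
    rw [hset]
    refine le_trans (Nat.cast_le.2 (Set.ncard_le_ncard ?_
      (((hset B) ▸ hfin B).subset fun a ha => ha.1))) h2
    rintro a ⟨ha, ha'⟩
    refine ⟨?_, fun h3 => ha' (of_gd hd h3)⟩
    have h4 := max_le_iff.1 ha
    intro i
    fin_cases i
    · exact h4.1
    · exact h4.2
  · have hfin : ∀ B : ℝ, {a : Fin (d + 1) → K | height a ≤ B}.Finite := fun B =>
      Pool.Agent.HFW.aff_finite B
    refine ⟨hfin, Pool.Agent.HFW.tendsto_of_den _ _ hfin fun ε hε => ?_⟩
    obtain ⟨B₀, h1⟩ := Pool.Agent.PLY.height_pol hd h hh h0 ε hε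
    refine ⟨B₀, fun B hB => le_trans (Nat.cast_le.2 (Set.ncard_le_ncard ?_
      ((hfin B).subset fun a ha => ha.1))) (h1 B hB)⟩
    rintro a ⟨ha, ha'⟩
    exact ⟨ha, fun h2 => ha' (of_gd hd h2)⟩
  · intro Γ hΓ hnp
    refine of_posDens hd hF hΓ ?_
    refine Pool.Agent.PLY.contr hd hF v 1 0 (by decide) hF1 (hI 0) hF0 (reps hΓ) fun x hx => ?_
    obtain ⟨γ, hγ, rfl⟩ := (mem_reps hΓ).1 hx
    exact ⟨γ.rep_nonzero, hnp γ hγ⟩

end Pool.Agent.Results.MP_63749c_nt.AlmostAllMaps
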