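import Pool.Agent.AAP.PosH
import Pool.Agent.NDE.NatM
import Pool.Agent.NDE.Ncd
import Pool.Agent.LMD.Fin
import Pool.Agent.LMD.PosE
import Pool.Agent.TFS5.SA
import Pool.Agent.TFS6.Lim
import Pool.Agent.TFS6.Prj
import Pool.Agent.TFS6.PrjM
import Pool.Agent.TFS6.Pos

/-!
# MP_63749c_nt: all rational maps, almost all pairs of points

`K` is a number field of degree `n`, `φ = [F_0 : F_1]` a rational map of degree `d ≥ 2` of the
projective line over `K`, given by two forms of degree `d` without a common zero.  For a finite set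
`Γ` of points, `goodPrimes F Γ` is the set `S` of the primes of good reduction modulo which no point
of `Γ` is periodic; density is lower natural density.

1. One prime suffices: if `S` is not empty, then it is infinite and has positive density.
2. For one nonperiodic point `S` is not empty.  If `S` is not empty for `Γ`, then it has positive
   density for `Γ` together with 100 per cent of the points of the projective line, ordered by
   height.
3. `S` has positive density for all finite sets of nonperiodic points if modulo one good prime of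
   residue characteristic `p` every periodic point lies in a cycle of local degree `e ≥ 2` that is
   not a power of `p`.
4. For 100 per cent of the maps `φ` of degree `d`, ordered by height, `S` has positive density for
   all pairs of different points of height at most `H(φ)^c`, for every `c < 1/(4n+8)`.
5. For every `ε > 0` and every degree `d ≥ d₀(K, ε)`, `S` has positive density for all finite sets
   of nonperiodic points for a proportion of at least `1 - ε` of the maps of degree `d` with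
   coefficients in the ring of integers, ordered by the coordinates of the coefficients, and
   likewise for at least `1 - ε` of the monic polynomials of degree `d` with coefficients in the
   ring of integers.  Over `ℚ`, for every degree `d ≥ 2`, the same holds for a proportion of at
   least `10^(-4)` of the monic integer polynomials of degree `d`.
6. `S` has positive density for all finite sets of nonperiodic points for a positive proportion of
   the maps of degree `d`, ordered by height.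
-/

set_option autoImplicit false

open IsDedekindDomain NumberField
open scoped WithZero

namespace Pool.Agent.Results.MP_63749c_nt.AlmostAllPairs

/-- A pair of polynomials in two variables. -/
abbrev Pair (A : Type) [CommRing A] : Type := Fin 2 → MvPolynomial (Fin 2) A

/-- The map `x ↦ (F_0(x), F_1(x))`. -/
noncomputable def app {A : Type} [CommRing A] (F : Pair A) (x : Fin 2 → A) : Fin 2 → A :=
  fun i => MvPolynomial.eval x (F i)

/-- `F` is a rational map of degree `d`: a pair of forms of degree `d` without a common zero over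
the algebraic closure other than `0`. -/
def IsRat {K : Type} [Field K] (d : ℕ) (F : Pair K) : Prop :=
  (∀ i, (F i).IsHomogeneous d) ∧ ∀ x : Fin 2 → AlgebraicClosure K,
    app (fun i => MvPolynomial.map (algebraMap K (AlgebraicClosure K)) (F i)) x = 0 → x = 0

/-- The points of the projective line over `K`. -/
abbrev Pt (K : Type) [Field K] : Type := Projectivization K (Fin 2 → K)

/-- The determinant of two vectors. -/
def det {A : Type} [CommRing A] (x y : Fin 2 → A) : A := x 0 * y 1 - x 1 * y 0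

/-- `γ` is a periodic point of `F`. -/
def Periodic {K : Type} [Field K] (F : Pair K) (γ : Pt K) : Prop :=
  ∃ n : ℕ, 0 < n ∧ det ((app F)^[n] γ.rep) γ.rep = 0

/-- The size of a vector with respect to the valuation `v`. -/
def size {K : Type} [Field K] (v : Valuation K ℤᵐ⁰) (x : Fin 2 → K) : ℤᵐ⁰ :=
  max (v (x 0)) (v (x 1))

/-- `γ` is periodic modulo `v`: for some `n ≥ 1` the points `F^n(γ)` and `γ` coincide modulo `v`,
that is, the determinant of representatives is smaller than the product of their sizes. -/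
def PeriodicMod {K : Type} [Field K] (v : Valuation K ℤᵐ⁰) (F : Pair K) (γ : Pt K) : Prop :=
  ∃ n : ℕ, 0 < n ∧
    v (det ((app F)^[n] γ.rep) γ.rep) < size v ((app F)^[n] γ.rep) * size v γ.rep

/-- All coefficients are integral at `v`. -/
def Integral {K : Type} [Field K] (v : Valuation K ℤᵐ⁰) (F : Pair K) : Prop :=
  ∀ i m, v ((F i).coeff m) ≤ 1

/-- `F` has good reduction at `v`: the coefficients are integral at `v`, and powers of the variables
are combinations of `F_0` and `F_1` with coefficients integral at `v`. -/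
def GoodAt {K : Type} [Field K] (v : Valuation K ℤᵐ⁰) (F : Pair K) : Prop :=
  Integral v F ∧ ∃ e : ℕ, ∀ j, ∃ G : Pair K, Integral v G ∧
    ∑ i, G i * F i = MvPolynomial.X j ^ e

/-- The primes of good reduction modulo which no point of `Γ` is periodic. -/
def goodPrimes {K : Type} [Field K] [NumberField K] (F : Pair K) (Γ : Set (Pt K)) :
    Set (HeightOneSpectrum (𝓞 K)) :=
  {v | GoodAt (v.valuation K) F ∧ ∀ γ ∈ Γ, ¬ PeriodicMod (v.valuation K) F γ}

/-- Positive lower natural density: for some `c > 0` and all large `x`, at least a proportion of `c`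
of the primes of norm at most `x` lie in `S`. -/
def PositiveDensity {K : Type} [Field K] [NumberField K]
    (S : Set (HeightOneSpectrum (𝓞 K))) : Prop :=
  ∃ c : ℝ, 0 < c ∧ ∃ X₀ : ℝ, ∀ x : ℝ, X₀ ≤ x →
    c * ({v : HeightOneSpectrum (𝓞 K) | (Ideal.absNorm v.asIdeal : ℝ) ≤ x}.ncard : ℝ) ≤
      ({v : HeightOneSpectrum (𝓞 K) | (Ideal.absNorm v.asIdeal : ℝ) ≤ x ∧ v ∈ S}.ncard : ℝ)

/-- For all finite sets of nonperiodic points the set of primes has positive density. -/
def AllSets {K : Type} [Field K] [NumberField K] (F : Pair K) : Prop :=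
  ∀ Γ : Set (Pt K), Γ.Finite → (∀ γ ∈ Γ, ¬ Periodic F γ) → PositiveDensity (goodPrimes F Γ)

/-- `Q` holds for 100 per cent of the `x`, ordered by `h`. -/
def AlmostAll {S : Type} (h : S → ℝ) (Q : S → Prop) : Prop :=
  (∀ B : ℝ, {x | h x ≤ B}.Finite) ∧
    Filter.Tendsto (fun B : ℝ => ({x | h x ≤ B ∧ Q x}.ncard : ℝ) / ({x | h x ≤ B}.ncard : ℝ))
      Filter.atTop (nhds 1)

/-- The two forms of degree `d` with the coefficients `t`. -/
noncomputable def forms {K : Type} [Field K] {d : ℕ} (t : Fin (2 * (d + 1)) → K) : Pair K :=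
  fun i => ∑ j : Fin (d + 1), MvPolynomial.C (t (finProdFinEquiv (i, j))) *
    MvPolynomial.X 0 ^ (j : ℕ) * MvPolynomial.X 1 ^ (d - (j : ℕ))

/-- The monic polynomial `x ^ d + ∑ t_j x ^ j` as a pair of forms. -/
noncomputable def monic {K : Type} [Field K] {d : ℕ} (t : Fin d → K) : Pair K :=
  ![MvPolynomial.X 0 ^ d + ∑ j : Fin d, MvPolynomial.C (t j) * MvPolynomial.X 0 ^ (j : ℕ) *
    MvPolynomial.X 1 ^ (d - (j : ℕ)), MvPolynomial.X 1 ^ d]

/-- The `N`-th iterate of `F` at `y + X u`. -/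
noncomputable def near {A : Type} [CommRing A] (F : Pair A) (N : ℕ) (y u : Fin 2 → A) :
    Fin 2 → Polynomial A :=
  (app fun i => MvPolynomial.map Polynomial.C (F i))^[N]
    fun i => Polynomial.C (y i) + Polynomial.X * Polynomial.C (u i)

/-- Modulo `v` the `N`-th iterate of `F` fixes `γ`, with local degree `e`: for a normalised
representative `y` of `γ` and a complementary vector `u`, the first coefficient of the determinant
of `F^N(y + X u)` and `y` that is a unit at `v` is that of `X^e`. -/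
def LocalDegree {K : Type} [Field K] (v : Valuation K ℤᵐ⁰) (F : Pair K) (γ : Pt K) (N e : ℕ) :
    Prop :=
  ∃ y u : Fin 2 → K, det γ.rep y = 0 ∧ size v y = 1 ∧ size v u ≤ 1 ∧ v (det y u) = 1 ∧
    (∀ j < e, v ((det (near F N y u) fun i => Polynomial.C (y i)).coeff j) < 1) ∧
    v ((det (near F N y u) fun i => Polynomial.C (y i)).coeff e) = 1

/-! ### proofs -/

section

variable {K : Type} [Field K]

open Classical in
/-- the representatives -/
noncomputable def reps {Γ : Set (Pt K)} (h : Γ.Finite) : Finset (Fin 2 → K) :=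
  h.toFinset.image Projectivization.rep

theorem mem_reps {Γ : Set (Pt K)} (h : Γ.Finite) {x : Fin 2 → K} :
    x ∈ reps h ↔ ∃ γ ∈ Γ, γ.rep = x := by
  unfold reps
  simp only [Finset.mem_image, Set.Finite.mem_toFinset]

theorem reps_ne {Γ : Set (Pt K)} (h : Γ.Finite) : ∀ x ∈ reps h, x ≠ 0 := by
  intro x hx
  obtain ⟨γ, -, rfl⟩ := (mem_reps h).1 hx
  exact γ.rep_nonzero

variable [NumberField K]

theorem goodPrimes_eq (F : Pair K) {Γ : Set (Pt K)} (h : Γ.Finite) :
    goodPrimes F Γ = Pool.Agent.AAP.SP F (reps h) := by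
  ext v
  constructor
  · rintro ⟨h1, h2⟩
    refine ⟨h1, fun x hx => ?_⟩
    obtain ⟨γ, hγ, rfl⟩ := (mem_reps h).1 hx
    exact h2 γ hγ
  · rintro ⟨h1, h2⟩
    exact ⟨h1, fun γ hγ => h2 γ.rep ((mem_reps h).2 ⟨γ, hγ, rfl⟩)⟩

/-- one good prime suffices -/
theorem of_nonempty {d : ℕ} (hd : 2 ≤ d) {F : Pair K} (hF : IsRat d F) {Γ : Set (Pt K)}
    (h : Γ.Finite) (hne : (goodPrimes F Γ).Nonempty) : PositiveDensity (goodPrimes F Γ) := by
  obtain ⟨v, hv⟩ := hne
  rw [goodPrimes_eq F h] at hv ⊢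
  exact (Pool.Agent.AAP.nat_of_mem hd hF (reps h) (reps_ne h) v hv).ncard

theorem of_posDens {d : ℕ} (hd : 2 ≤ d) {F : Pair K} (hF : IsRat d F) {Γ : Set (Pt K)}
    (h : Γ.Finite) (hp : Pool.Agent.TameArb.PosDens (Pool.Agent.AAP.SP F (reps h))) :
    PositiveDensity (goodPrimes F Γ) := by
  refine of_nonempty hd hF h ?_
  rw [goodPrimes_eq F h]
  exact hp.infinite.nonempty

end

/-- a number that is not a power of `p` has another prime divisor -/
theorem exists_tame {p e : ℕ} (he : e ≠ 0) (h : ∀ k, e ≠ p ^ k) :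
    ∃ l : ℕ, l.Prime ∧ l ≠ p ∧ l ∣ e := by
  by_contra hcon
  push Not at hcon
  exact h _ (Nat.eq_prime_pow_of_unique_prime_dvd he fun {l} hl hle =>
    by_contra fun hne => hcon l hl hne hle)

theorem monic_eq {K : Type} [Field K] {d : ℕ} (t : Fin d → K) :
    monic t = Pool.Agent.PSH.PairA.pr (Pool.Agent.TFS6.mpol t) := by
  funext i
  fin_cases i
  · exact (Pool.Agent.TFS6.pr_mpol_zero t).symm
  · exact (Pool.Agent.TFS6.pr_mpol_one t).symm

theorem monic_sets {K : Type} [Field K] [NumberField K] {D : ℕ} (hD2 : 2 ≤ D) (t : Fin D → 𝓞 K)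
    (h2 : ∀ Γ : Finset K, (∀ γ ∈ Γ, ∀ n, 0 < n →
      (Pool.Agent.TameArb.ph (Pool.Agent.TFS6.mpol fun i => (t i : K)))^[n] γ ≠ γ) →
        (Pool.Agent.TameArb.GP (Pool.Agent.TFS6.mpol fun i => (t i : K)) Γ).Infinite) :
    IsRat D (monic fun i => (t i : K)) ∧ AllSets (monic fun i => (t i : K)) := by
  have hn : 2 ≤ (Pool.Agent.TFS6.mpol fun i => (t i : K)).natDegree := by
    rw [Pool.Agent.TFS6.mpol_degree]
    exact hD2
  have hmor : IsRat D (monic fun i => (t i : K)) := by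
    have h3 := Pool.Agent.PSH.PairA.isMor_pr (Pool.Agent.TFS6.mpol fun i => (t i : K)) hn
    rw [Pool.Agent.TFS6.mpol_degree] at h3
    rw [monic_eq]
    exact h3
  refine ⟨hmor, fun Γ hΓ hnp => of_nonempty hD2 hmor hΓ ?_⟩
  rw [goodPrimes_eq _ hΓ, monic_eq]
  refine Pool.Agent.TFS6.sp_of_gp hn (fun Γ' hΓ' => (h2 Γ' hΓ').nonempty) _ fun x hx => ?_
  obtain ⟨γ, hγ, rfl⟩ := (mem_reps hΓ).1 hx
  refine ⟨γ.rep_nonzero, fun h3 => hnp γ hγ ?_⟩
  rw [monic_eq]
  exact h3

/-- monic integral polynomials of large degree -/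
theorem monic_case (K : Type) [Field K] [NumberField K] (ε : ℝ) (hε : 0 < ε) :
    ∃ d₀ : ℕ, ∀ D : ℕ, d₀ ≤ D → ∀ (m : ℕ) (ω : Module.Basis (Fin m) ℤ (𝓞 K)), ∃ H₀ : ℕ,
      ∀ H : ℕ, H₀ ≤ H →
        (1 - ε) * ({t : Fin D → 𝓞 K | ∀ i j, |ω.repr (t i) j| ≤ H}.ncard : ℝ) ≤
          ({t : Fin D → 𝓞 K | (∀ i j, |ω.repr (t i) j| ≤ H) ∧
            IsRat D (monic fun i => (t i : K)) ∧ AllSets (monic fun i => (t i : K))}.ncard : ℝ) := by
  obtain ⟨d₀, h⟩ := Pool.Agent.TFS6.lim_monic K ε hε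
  refine ⟨max d₀ 2, fun D hD m ω => ?_⟩
  obtain ⟨H₀, h1⟩ := h D ((le_max_left _ _).trans hD) m ω
  refine ⟨H₀, fun H hH => (h1 H hH).trans (Nat.cast_le.2 (Set.ncard_le_ncard ?_
    ((Pool.Agent.LMD.FinA.finite_box ω H).subset fun t ht => ht.1)))⟩
  rintro t ⟨ht, h2⟩
  exact ⟨ht, monic_sets ((le_max_right _ _).trans hD) t h2⟩

/-- monic integer polynomials of every degree -/
theorem monic_every {d : ℕ} (hd : 2 ≤ d) : ∃ H₀ : ℕ, ∀ H : ℕ, H₀ ≤ H →
    (1 / 10 ^ 4 : ℝ) * ({t : Fin d → 𝓞 ℚ | ∀ i, |(t i : ℚ)| ≤ H}.ncard : ℝ) ≤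
      ({t : Fin d → 𝓞 ℚ | (∀ i, |(t i : ℚ)| ≤ H) ∧ IsRat d (monic fun i => (t i : ℚ)) ∧
        AllSets (monic fun i => (t i : ℚ))}.ncard : ℝ) := by
  obtain ⟨H₀, h⟩ := Pool.Agent.TFS6.pos_monic hd
  refine ⟨H₀, fun H hH => (h H hH).trans (Nat.cast_le.2 (Set.ncard_le_ncard ?_
    ((Pool.Agent.TFS6.finite_rat H).subset fun t ht => ht.1)))⟩
  rintro t ⟨ht, h2⟩
  exact ⟨ht, monic_sets hd t h2⟩

theorem result (K : Type) [Field K] [NumberField K] (d : ℕ) (hd : 2 ≤ d) :
    (∀ F : Pair K, IsRat d F →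
      (∀ Γ : Set (Pt K), Γ.Finite → (goodPrimes F Γ).Nonempty →
        (goodPrimes F Γ).Infinite ∧ PositiveDensity (goodPrimes F Γ)) ∧
      (∀ γ : Pt K, ¬ Periodic F γ → (goodPrimes F {γ}).Nonempty) ∧
      (∀ Γ : Set (Pt K), Γ.Finite → Γ.Nonempty → (goodPrimes F Γ).Nonempty →
        AlmostAll (fun γ : Pt K => γ.mulHeight)
          fun γ => PositiveDensity (goodPrimes F (insert γ Γ))) ∧
      (∀ (v : HeightOneSpectrum (𝓞 K)) (p : ℕ), p.Prime → v.valuation K (p : K) < 1 →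
        GoodAt (v.valuation K) F →
        (∀ γ : Pt K, PeriodicMod (v.valuation K) F γ →
          ∃ N e : ℕ, 0 < N ∧ 0 < e ∧ (∀ k, e ≠ p ^ k) ∧
            LocalDegree (v.valuation K) F γ N e) →
        AllSets F)) ∧
    (∀ c : ℝ, 0 < c → c * (4 * Module.finrank ℚ K + 8) < 1 →
      AlmostAll (fun t : Projectivization K (Fin (2 * (d + 1)) → K) => t.mulHeight)
        fun t => IsRat d (forms t.rep) ∧ ∀ γ₁ γ₂ : Pt K, γ₁ ≠ γ₂ →
          γ₁.mulHeight ≤ t.mulHeight ^ c → γ₂.mulHeight ≤ t.mulHeight ^ c →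
            PositiveDensity (goodPrimes (forms t.rep) {γ₁, γ₂})) ∧
    (∀ ε : ℝ, 0 < ε → ∃ d₀ : ℕ, ∀ D : ℕ, d₀ ≤ D →
      ∀ (m : ℕ) (ω : Module.Basis (Fin m) ℤ (𝓞 K)), ∃ H₀ : ℕ, ∀ H : ℕ, H₀ ≤ H →
        (1 - ε) * ({t : Fin (2 * (D + 1)) → 𝓞 K | ∀ i j, |ω.repr (t i) j| ≤ H}.ncard : ℝ) ≤
          ({t : Fin (2 * (D + 1)) → 𝓞 K | (∀ i j, |ω.repr (t i) j| ≤ H) ∧
            IsRat D (forms fun i => (t i : K)) ∧
            AllSets (forms fun i => (t i : K))}.ncard : ℝ) ∧
        (1 - ε) * ({t : Fin D → 𝓞 K | ∀ i j, |ω.repr (t i) j| ≤ H}.ncard : ℝ) ≤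
          ({t : Fin D → 𝓞 K | (∀ i j, |ω.repr (t i) j| ≤ H) ∧
            IsRat D (monic fun i => (t i : K)) ∧
            AllSets (monic fun i => (t i : K))}.ncard : ℝ)) ∧
    (∃ H₀ : ℕ, ∀ H : ℕ, H₀ ≤ H →
      (1 / 10 ^ 4 : ℝ) * ({t : Fin d → 𝓞 ℚ | ∀ i, |(t i : ℚ)| ≤ H}.ncard : ℝ) ≤
        ({t : Fin d → 𝓞 ℚ | (∀ i, |(t i : ℚ)| ≤ H) ∧ IsRat d (monic fun i => (t i : ℚ)) ∧
          AllSets (monic fun i => (t i : ℚ))}.ncard : ℝ)) ∧
    ∃ c : ℝ, 0 < c ∧ ∃ B₀ : ℝ, ∀ B : ℝ, B₀ ≤ B →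
      c * ({t : Projectivization K (Fin (2 * (d + 1)) → K) | t.mulHeight ≤ B}.ncard : ℝ) ≤
        ({t : Projectivization K (Fin (2 * (d + 1)) → K) | t.mulHeight ≤ B ∧
          IsRat d (forms t.rep) ∧ AllSets (forms t.rep)}.ncard : ℝ) := by
  classical
  refine ⟨fun F hF => ⟨fun Γ hΓ hne => ⟨?_, of_nonempty hd hF hΓ hne⟩, ?_, ?_, ?_⟩, ?_, ?_,
    monic_every hd, ?_⟩
  · obtain ⟨v, hv⟩ := hne
    rw [goodPrimes_eq F hΓ] at hv ⊢
    exact (Pool.Agent.AAP.dens_of_mem hd hF (reps hΓ) (reps_ne hΓ) v hv).infinite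
  · intro γ hγ
    obtain ⟨v, hv⟩ := Pool.Agent.AAP.exists_prime hd hF γ.rep γ.rep_nonzero hγ
    refine ⟨v, hv.1, fun γ' hγ' => ?_⟩
    rw [Set.mem_singleton_iff] at hγ'
    rw [hγ']
    exact hv.2 γ.rep (Finset.mem_singleton_self _)
  · intro Γ hΓ hne hS
    refine ⟨fun B => Pool.Agent.HTK.pts_finite K 2 B, ?_⟩
    have : Nonempty (Pt K) := ⟨hne.some⟩
    refine Pool.Agent.HFW.tendsto_of_den _ _ (fun B => Pool.Agent.HTK.pts_finite K 2 B) ?_
    intro ε hε
    rw [goodPrimes_eq F hΓ] at hS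
    obtain ⟨B₀, h⟩ := Pool.Agent.AAP.height_pairs hd hF (reps hΓ) (reps_ne hΓ)
      (by obtain ⟨γ, hγ⟩ := hne; exact ⟨γ.rep, (mem_reps hΓ).2 ⟨γ, hγ, rfl⟩⟩) hS ε hε
    refine ⟨B₀, fun B hB => le_trans (Nat.cast_le.2 (Set.ncard_le_ncard ?_
      ((Pool.Agent.HTK.pts_finite K 2 B).subset fun P hP => hP.1))) (h B hB)⟩
    rintro P ⟨hP, hP'⟩
    refine ⟨hP, fun h2 => hP' (of_posDens hd hF (hΓ.insert P) ?_)⟩
    have h3 : reps (hΓ.insert P) = insert P.rep (reps hΓ) := by
      ext x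
      rw [mem_reps, Finset.mem_insert, mem_reps]
      constructor
      · rintro ⟨γ, hγ, rfl⟩
        rcases hγ with rfl | hγ
        · exact Or.inl rfl
        · exact Or.inr ⟨γ, hγ, rfl⟩
      · rintro (rfl | ⟨γ, hγ, rfl⟩)
        · exact ⟨P, Set.mem_insert _ _, rfl⟩
        · exact ⟨γ, Set.mem_insert_of_mem _ hγ, rfl⟩
    rw [h3]
    exact h2
  · intro v p hp hpv hG hcyc Γ hΓ hnp
    refine of_posDens hd hF hΓ ?_
    refine Pool.Agent.TFS5.dens_sa hd hF v hG hp hpv (reps hΓ) (reps_ne hΓ) fun x hx => ?_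
    obtain ⟨γ, hγ, rfl⟩ := (mem_reps hΓ).1 hx
    by_cases hper : PeriodicMod (v.valuation K) F γ
    · obtain ⟨N, e, hN, he, hpe, hS⟩ := hcyc γ hper
      have he1 : e ≠ 1 := fun h => hpe 0 (by rw [h, pow_zero])
      exact Or.inr ⟨hnp γ hγ, N, e, hN, by omega, exists_tame he.ne' hpe, hS⟩
    · exact Or.inl hper
  · intro c hc0 hc
    refine ⟨fun B => Pool.Agent.HTK.pts_finite K (2 * (d + 1)) B, ?_⟩
    have : Nonempty (Projectivization K (Fin (2 * (d + 1)) → K)) :=
      ⟨Projectivization.mk K (fun _ => 1) fun h => one_ne_zero (α := K) (congrFun h 0)⟩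
    refine Pool.Agent.HFW.tendsto_of_den _ _
      (fun B => Pool.Agent.HTK.pts_finite K (2 * (d + 1)) B) ?_
    intro ε hε
    obtain ⟨B₀, h⟩ := Pool.Agent.AAP.height_small (K := K) hd c hc0 hc ε hε
    refine ⟨B₀, fun B hB => le_trans (Nat.cast_le.2 (Set.ncard_le_ncard ?_
      ((Pool.Agent.HTK.pts_finite K (2 * (d + 1)) B).subset fun P hP => hP.1))) (h B hB)⟩
    rintro t ⟨ht, ht'⟩
    refine ⟨ht, fun h2 => ht' ⟨h2.1, fun γ₁ γ₂ hne h3 h4 => ?_⟩⟩
    have hfin : ({γ₁, γ₂} : Set (Pt K)).Finite := Set.toFinite _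
    refine of_posDens hd h2.1 hfin ?_
    have h5 : reps hfin = {γ₁.rep, γ₂.rep} := by
      ext x
      rw [mem_reps, Finset.mem_insert, Finset.mem_singleton]
      constructor
      · rintro ⟨γ, hγ, rfl⟩
        rcases hγ with rfl | hγ
        · exact Or.inl rfl
        · rw [Set.mem_singleton_iff] at hγ
          exact Or.inr (by rw [hγ])
      · rintro (rfl | rfl)
        · exact ⟨γ₁, Set.mem_insert _ _, rfl⟩
        · exact ⟨γ₂, Set.mem_insert_of_mem _ rfl, rfl⟩
    rw [h5]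
    exact h2.2 γ₁ γ₂ hne h3 h4
  · intro ε hε
    obtain ⟨d₀, hd₀⟩ := Pool.Agent.LMD.lim_maps K ε hε
    obtain ⟨d₁, hd₁⟩ := monic_case K ε hε
    refine ⟨max d₁ (max d₀ 2), fun D hD m ω => ?_⟩
    have hD' := (le_max_right _ _).trans hD
    obtain ⟨H₀, h⟩ := hd₀ D ((le_max_left _ _).trans hD') m ω
    obtain ⟨H₁, h1⟩ := hd₁ D ((le_max_left _ _).trans hD) m ω
    refine ⟨max H₀ H₁, fun H hH => ⟨(h H ((le_max_left _ _).trans hH)).trans
      (Nat.cast_le.2 (Set.ncard_le_ncard ?_ ?_)), h1 H ((le_max_right _ _).trans hH)⟩⟩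
    · rintro t ⟨ht, hmor, ht'⟩
      refine ⟨ht, hmor, fun Γ hΓ hnp =>
        of_posDens ((le_max_right _ _).trans hD') hmor hΓ (ht' (reps hΓ) fun x hx => ?_)⟩
      obtain ⟨γ, hγ, rfl⟩ := (mem_reps hΓ).1 hx
      exact ⟨γ.rep_nonzero, hnp γ hγ⟩
    · exact (Pool.Agent.LMD.FinA.finite_box ω H).subset fun t ht => ht.1
  · obtain ⟨c, hc, B₀, h⟩ := Pool.Agent.LMD.pos_all (K := K) hd
    refine ⟨c, hc, B₀, fun B hB => (h B hB).trans ?_⟩
    refine Nat.cast_le.2 (Set.ncard_le_ncard ?_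
      ((Pool.Agent.HTK.pts_finite K (2 * (d + 1)) B).subset fun P hP => hP.1))
    rintro t ⟨ht, hmor, ht'⟩
    refine ⟨ht, hmor, fun Γ hΓ hnp => of_posDens hd hmor hΓ (ht' (reps hΓ) fun x hx => ?_)⟩
    obtain ⟨γ, hγ, rfl⟩ := (mem_reps hΓ).1 hx
    exact ⟨γ.rep_nonzero, hnp γ hγ⟩

end Pool.Agent.Results.MP_63749c_nt.AlmostAllPairs
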