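import Pool.Agent.TameArb.Down
import Pool.Agent.TameArb.OnePrime
import Pool.Agent.NDE.Pol

/-!
# MP_63749c_nt: polynomials, one nonintegral point is enough

Let `K` be a number field, `φ` a polynomial over `K` of degree `d ≥ 2`.  A prime `v` of `K` is good
if all coefficients of `φ` are integral at `v` and the leading coefficient is a unit at `v`.

Main theorem.  Let `Γ` be a finite set of nonperiodic points of `K`, and let `v₀` be a good prime.
Suppose that every `γ ∈ Γ` is nonintegral at some good prime of residue characteristic greater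
than `d`, or is nonintegral at `v₀` and `d` is a unit at `v₀`, or is integral at `v₀` and not
periodic modulo `v₀`.  Then the good primes at which all points of `Γ` are integral and nonperiodic
have positive lower natural density; in particular there are infinitely many of them.

For one point `γ₀` there is always a suitable `v₀`, so the theorem applies to all finite sets of
nonperiodic points of which all members but one are nonintegral at such primes.  In particular
the question has a positive answer for all pairs of nonperiodic points one of which is nonintegral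
at a good prime of residue characteristic greater than `d`.
-/

set_option autoImplicit false

open IsDedekindDomain NumberField Polynomial

namespace Pool.Agent.Results.MP_63749c_nt.OneNonintegralPoint

/-- `γ` is a periodic point of the polynomial map `φ`. -/
def Periodic {K : Type*} [Field K] (φ : K[X]) (γ : K) : Prop :=
  ∃ n : ℕ, 0 < n ∧ (fun x => φ.eval x)^[n] γ = γ

/-- `x` is integral at the prime `v`. -/
def IntegralAt {K : Type*} [Field K] [NumberField K] (v : HeightOneSpectrum (𝓞 K)) (x : K) :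
    Prop := v.valuation K x ≤ 1

/-- `φ` has good reduction at `v`: its coefficients are integral and its leading coefficient is a
unit at `v`. -/
def GoodAt {K : Type*} [Field K] [NumberField K] (v : HeightOneSpectrum (𝓞 K)) (φ : K[X]) :
    Prop := (∀ i, IntegralAt v (φ.coeff i)) ∧ v.valuation K φ.leadingCoeff = 1

/-- `γ` is periodic modulo the good prime `v` (for `γ` integral at `v`): some iterate of the
residue class of `γ` is this class again. -/
def PeriodicMod {K : Type*} [Field K] [NumberField K] (v : HeightOneSpectrum (𝓞 K)) (φ : K[X])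
    (γ : K) : Prop := ∃ n : ℕ, 0 < n ∧ v.valuation K ((fun x => φ.eval x)^[n] γ - γ) < 1

/-- The residue characteristic of `v` is greater than `d`. -/
def CharGt {K : Type*} [Field K] [NumberField K] (v : HeightOneSpectrum (𝓞 K)) (d : ℕ) : Prop :=
  ∃ p : ℕ, p.Prime ∧ v.valuation K (p : K) < 1 ∧ d < p

/-- The good primes at which all points of `Γ` are integral and none is periodic modulo `v`. -/
def goodPrimes {K : Type*} [Field K] [NumberField K] (φ : K[X]) (Γ : Finset K) :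
    Set (HeightOneSpectrum (𝓞 K)) :=
  {v | GoodAt v φ ∧ ∀ γ ∈ Γ, IntegralAt v γ ∧ ¬ PeriodicMod v φ γ}

/-- Positive lower natural density: for a constant `c > 0` and all large `x`, at least the proportion
`c` of the primes of norm at most `x` lies in `S`. -/
def PositiveLowerDensity {K : Type*} [Field K] [NumberField K]
    (S : Set (HeightOneSpectrum (𝓞 K))) : Prop :=
  ∃ c : ℝ, 0 < c ∧ ∃ X₀ : ℝ, ∀ x : ℝ, X₀ ≤ x →
    c * ({v : HeightOneSpectrum (𝓞 K) | (Ideal.absNorm v.asIdeal : ℝ) ≤ x}.ncard : ℝ) ≤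
      ({v : HeightOneSpectrum (𝓞 K) | v ∈ S ∧ (Ideal.absNorm v.asIdeal : ℝ) ≤ x}.ncard : ℝ)

section

open Pool.Agent.TameArb

variable {K : Type} [Field K] [NumberField K]

omit [NumberField K] in
theorem iter_eq (φ : K[X]) : (ph φ : K → K) = fun x => φ.eval x := by
  funext x
  exact ph_eq_eval φ x

theorem core (φ : K[X]) (hd : 2 ≤ φ.natDegree) (Γ : Finset K) (hnp : ∀ γ ∈ Γ, ¬ Periodic φ γ)
    (v₀ : HeightOneSpectrum (𝓞 K)) (hv₀ : GoodAt v₀ φ)
    (hΓ : ∀ γ ∈ Γ, (∃ v : HeightOneSpectrum (𝓞 K), GoodAt v φ ∧ CharGt v φ.natDegree ∧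
      ¬ IntegralAt v γ) ∨ (¬ IntegralAt v₀ γ ∧ v₀.valuation K (φ.natDegree : K) = 1) ∨
      (IntegralAt v₀ γ ∧ ¬ PeriodicMod v₀ φ γ)) :
    (goodPrimes φ Γ).Infinite ∧ PositiveLowerDensity (goodPrimes φ Γ) := by
  classical
  have hG : ∀ v : HeightOneSpectrum (𝓞 K), GoodAt v φ → Good (v.valuation K) φ :=
    fun v h => ⟨h.1, h.2⟩
  have hP : ∀ (v : HeightOneSpectrum (𝓞 K)) (γ : K),
      PeriodicMod v φ γ ↔ PerMod (v.valuation K) φ γ := by
    intro v γ
    rw [PeriodicMod, PerMod, iter_eq]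
  have hset : goodPrimes φ Γ = GP φ Γ := by
    ext v
    constructor
    · rintro ⟨h1, h2⟩
      exact ⟨hG v h1, fun γ hγ => ⟨(h2 γ hγ).1, fun h => (h2 γ hγ).2 ((hP v γ).mpr h)⟩⟩
    · rintro ⟨h1, h2⟩
      exact ⟨⟨h1.int, h1.lead⟩, fun γ hγ => ⟨(h2 γ hγ).1, fun h => (h2 γ hγ).2 ((hP v γ).mp h)⟩⟩
  have hchoice : ∀ γ : K, ∃ v : HeightOneSpectrum (𝓞 K),
      (∃ v : HeightOneSpectrum (𝓞 K), GoodAt v φ ∧ CharGt v φ.natDegree ∧ ¬ IntegralAt v γ) →
        GoodAt v φ ∧ CharGt v φ.natDegree ∧ ¬ IntegralAt v γ := by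
    intro γ
    by_cases h : ∃ v : HeightOneSpectrum (𝓞 K), GoodAt v φ ∧ CharGt v φ.natDegree ∧
      ¬ IntegralAt v γ
    · obtain ⟨v, hv⟩ := h
      exact ⟨v, fun _ => hv⟩
    · exact ⟨v₀, fun h' => absurd h' h⟩
  choose F hF using hchoice
  set T : Finset (HeightOneSpectrum (𝓞 K)) := (Γ.filter (fun γ =>
    ∃ v : HeightOneSpectrum (𝓞 K), GoodAt v φ ∧ CharGt v φ.natDegree ∧ ¬ IntegralAt v γ)).image F
    with hTdef
  have hmain := main φ hd Γ (fun γ hγ n hn h => hnp γ hγ ⟨n, hn, by rw [← iter_eq]; exact h⟩) T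
    (by
      intro v hv
      obtain ⟨γ, hγ, rfl⟩ := Finset.mem_image.mp hv
      obtain ⟨h1, h2, -⟩ := hF γ (Finset.mem_filter.mp hγ).2
      exact ⟨hG _ h1, h2⟩)
    v₀ (hG v₀ hv₀) (by
      intro γ hγ
      rcases hΓ γ hγ with h | h | h
      · left
        refine ⟨F γ, Finset.mem_image.mpr ⟨γ, Finset.mem_filter.mpr ⟨hγ, h⟩, rfl⟩, ?_⟩
        exact not_le.mp (hF γ h).2.2
      · right; left
        exact ⟨not_le.mp h.1, h.2⟩
      · right; right
        exact ⟨h.1, fun h' => h.2 ((hP v₀ γ).mpr h')⟩)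
  have hnat := Pool.Agent.NDE.nat_poly φ hd Γ hmain.infinite.nonempty
  rw [hset]
  exact ⟨hmain.infinite, Pool.Agent.NDE.natDens_iff.1 hnat⟩

theorem one [DecidableEq K] (φ : K[X]) (hd : 2 ≤ φ.natDegree) (Γ : Finset K) (hnp : ∀ γ ∈ Γ, ¬ Periodic φ γ)
    (γ₀ : K) (hγ₀ : ¬ Periodic φ γ₀)
    (hΓ : ∀ γ ∈ Γ, ∃ v : HeightOneSpectrum (𝓞 K), GoodAt v φ ∧ CharGt v φ.natDegree ∧
      ¬ IntegralAt v γ) :
    (goodPrimes φ (insert γ₀ Γ)).Infinite ∧ PositiveLowerDensity (goodPrimes φ (insert γ₀ Γ)) := by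
  obtain ⟨v₀, h1, h2, h3, h4⟩ := exists_prime_nonperiodic K φ hd γ₀
    (fun n hn h => hγ₀ ⟨n, hn, h⟩)
  apply core φ hd _ _ v₀ ⟨h1, h2⟩
  · intro γ hγ
    rcases Finset.mem_insert.mp hγ with rfl | hγ
    · right; right
      exact ⟨h3, fun ⟨n, hn, h⟩ => h4 n hn h⟩
    · left
      exact hΓ γ hγ
  · intro γ hγ
    rcases Finset.mem_insert.mp hγ with rfl | hγ
    · exact hγ₀
    · exact hnp γ hγ

/-- a prime above `p` -/
theorem exists_above_rat {p : ℕ} (hp : p.Prime) :
    ∃ v : HeightOneSpectrum (𝓞 ℚ), v.valuation ℚ (p : ℚ) < 1 := by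
  have hnu : ¬ IsUnit ((p : ℕ) : 𝓞 ℚ) := by
    intro h
    obtain ⟨q, hq⟩ := h.exists_right_inv
    have h1 := congrArg (Rat.ringOfIntegersEquiv) hq
    rw [map_mul, map_natCast, map_one] at h1
    have h2 : IsUnit (p : ℤ) := IsUnit.of_mul_eq_one _ h1
    have h3 := Int.isUnit_iff.mp h2
    have h4 := hp.one_lt
    omega
  obtain ⟨M, hM, hpM⟩ := exists_max_ideal_of_mem_nonunits hnu
  have hM0 : M ≠ ⊥ := by
    rintro rfl
    have : ((p : ℕ) : 𝓞 ℚ) = 0 := hpM
    have h2 : (p : ℕ) = 0 := by exact_mod_cast this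
    exact hp.ne_zero h2
  refine ⟨⟨M, hM.isPrime, hM0⟩, ?_⟩
  have := (HeightOneSpectrum.valuation_lt_one_iff_mem (K := ℚ) ⟨M, hM.isPrime, hM0⟩
    ((p : ℕ) : 𝓞 ℚ)).mpr hpM
  simpa using this

/-- a rational number is nonintegral at the primes above a divisor of its denominator -/
theorem nonint_rat {p : ℕ} {γ : ℚ} (hpγ : p ∣ γ.den)
    {v : HeightOneSpectrum (𝓞 ℚ)} (hv : v.valuation ℚ (p : ℚ) < 1) : ¬ IntegralAt v γ := by
  intro hint
  have hden : v.valuation ℚ (γ.den : ℚ) < 1 := by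
    obtain ⟨c, hc⟩ := hpγ
    rw [hc]
    push_cast
    rw [map_mul, mul_comm]
    exact mul_lt_one_aux (natCast_le c) hv
  have hnum : v.valuation ℚ (γ.num : ℚ) < 1 := by
    have h1 : (γ.num : ℚ) = γ * γ.den := (Rat.mul_den_eq_num γ).symm
    rw [h1, map_mul]
    exact mul_lt_one_aux hint hden
  have hintZ : ∀ n : ℤ, v.valuation ℚ (n : ℚ) ≤ 1 := by
    intro n
    obtain ⟨m, rfl | rfl⟩ := Int.eq_nat_or_neg n
    · rw [Int.cast_natCast]; exact natCast_le m
    · rw [Int.cast_neg, Int.cast_natCast, Valuation.map_neg]; exact natCast_le m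
  have hcop : IsCoprime γ.num (γ.den : ℤ) := by
    rw [Int.isCoprime_iff_nat_coprime]
    simpa using γ.reduced
  obtain ⟨a, b, hab⟩ := hcop
  have h1 : (a : ℚ) * γ.num + b * γ.den = 1 := by exact_mod_cast hab
  have h2 : v.valuation ℚ ((a : ℚ) * γ.num + b * γ.den) < 1 := by
    apply Valuation.map_add_lt
    · rw [map_mul]; exact mul_lt_one_aux (hintZ a) hnum
    · rw [map_mul]; exact mul_lt_one_aux (hintZ b) hden
  rw [h1, map_one] at h2
  exact lt_irrefl _ h2

end

/-- (1) The general theorem.  (2) All points but one are nonintegral at good primes of residue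
characteristic greater than the degree.  (3) Pairs of points.  (4) Monic integral polynomials over
the rational numbers. -/
theorem result :
    (∀ (K : Type) [Field K] [NumberField K] (φ : K[X]), 2 ≤ φ.natDegree →
      ∀ Γ : Finset K, (∀ γ ∈ Γ, ¬ Periodic φ γ) →
      ∀ v₀ : HeightOneSpectrum (𝓞 K), GoodAt v₀ φ →
      (∀ γ ∈ Γ, (∃ v : HeightOneSpectrum (𝓞 K), GoodAt v φ ∧ CharGt v φ.natDegree ∧
        ¬ IntegralAt v γ) ∨ (¬ IntegralAt v₀ γ ∧ v₀.valuation K (φ.natDegree : K) = 1) ∨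
        (IntegralAt v₀ γ ∧ ¬ PeriodicMod v₀ φ γ)) →
      (goodPrimes φ Γ).Infinite ∧ PositiveLowerDensity (goodPrimes φ Γ)) ∧
    (∀ (K : Type) [Field K] [NumberField K] [DecidableEq K] (φ : K[X]), 2 ≤ φ.natDegree →
      ∀ (Γ : Finset K) (γ₀ : K), ¬ Periodic φ γ₀ →
      (∀ γ ∈ Γ, ¬ Periodic φ γ ∧ ∃ v : HeightOneSpectrum (𝓞 K), GoodAt v φ ∧
        CharGt v φ.natDegree ∧ ¬ IntegralAt v γ) →
      (goodPrimes φ (insert γ₀ Γ)).Infinite ∧
        PositiveLowerDensity (goodPrimes φ (insert γ₀ Γ))) ∧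
    (∀ (K : Type) [Field K] [NumberField K] [DecidableEq K] (φ : K[X]), 2 ≤ φ.natDegree →
      ∀ γ₁ γ₂ : K, ¬ Periodic φ γ₁ → ¬ Periodic φ γ₂ →
      (∃ v : HeightOneSpectrum (𝓞 K), GoodAt v φ ∧ CharGt v φ.natDegree ∧ ¬ IntegralAt v γ₁) →
      (goodPrimes φ {γ₁, γ₂}).Infinite ∧ PositiveLowerDensity (goodPrimes φ {γ₁, γ₂})) ∧
    (∀ φ : ℤ[X], φ.Monic → 2 ≤ φ.natDegree → ∀ (Γ : Finset ℚ) (γ₀ : ℚ),
      ¬ Periodic (φ.map (Int.castRingHom ℚ)) γ₀ →
      (∀ γ ∈ Γ, ∃ p : ℕ, p.Prime ∧ φ.natDegree < p ∧ p ∣ γ.den) →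
      (goodPrimes (φ.map (Int.castRingHom ℚ)) (insert γ₀ Γ)).Infinite ∧
        PositiveLowerDensity (goodPrimes (φ.map (Int.castRingHom ℚ)) (insert γ₀ Γ))) := by
  refine ⟨?_, ?_, ?_, ?_⟩
  · intro K _ _ φ hd Γ hnp v₀ hv₀ hΓ
    exact core φ hd Γ hnp v₀ hv₀ hΓ
  · intro K _ _ _ φ hd Γ γ₀ hγ₀ hΓ
    exact one φ hd Γ (fun γ hγ => (hΓ γ hγ).1) γ₀ hγ₀ (fun γ hγ => (hΓ γ hγ).2)
  · intro K _ _ _ φ hd γ₁ γ₂ h1 h2 hv
    have h := one φ hd {γ₁} (by simpa using h1) γ₂ h2 (by simpa using hv)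
    rwa [Finset.pair_comm]
  · intro φ hφ hd Γ γ₀ hγ₀ hΓ
    have hdeg : (φ.map (Int.castRingHom ℚ)).natDegree = φ.natDegree :=
      natDegree_map_eq_of_injective (RingHom.injective_int (Int.castRingHom ℚ)) φ
    have hgood : ∀ v : HeightOneSpectrum (𝓞 ℚ), GoodAt v (φ.map (Int.castRingHom ℚ)) := by
      intro v
      refine ⟨fun i => ?_, ?_⟩
      · rw [IntegralAt, coeff_map, eq_intCast]
        obtain ⟨m, hm | hm⟩ := Int.eq_nat_or_neg (φ.coeff i)
        · rw [hm, Int.cast_natCast]; exact Pool.Agent.TameArb.natCast_le m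
        · rw [hm, Int.cast_neg, Int.cast_natCast, Valuation.map_neg]
          exact Pool.Agent.TameArb.natCast_le m
      · rw [(hφ.map (Int.castRingHom ℚ)).leadingCoeff, map_one]
    have hwit : ∀ γ ∈ Γ, ∃ v : HeightOneSpectrum (𝓞 ℚ), GoodAt v (φ.map (Int.castRingHom ℚ)) ∧
        CharGt v (φ.map (Int.castRingHom ℚ)).natDegree ∧ ¬ IntegralAt v γ := by
      intro γ hγ
      obtain ⟨p, hp, hpd, hpγ⟩ := hΓ γ hγ
      obtain ⟨v, hv⟩ := exists_above_rat hp
      exact ⟨v, hgood v, ⟨p, hp, hv, by rw [hdeg]; exact hpd⟩, nonint_rat hpγ hv⟩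
    apply one _ (by rw [hdeg]; exact hd) Γ _ γ₀ hγ₀ hwit
    -- nonintegral points are not periodic
    intro γ hγ hper
    obtain ⟨v, hv1, -, hv2⟩ := hwit γ hγ
    obtain ⟨n, hn, hE⟩ := hper
    have hG : Pool.Agent.TameArb.Good (v.valuation ℚ) (φ.map (Int.castRingHom ℚ)) :=
      ⟨hv1.1, hv1.2⟩
    have h := Pool.Agent.TameArb.overSelf (v.valuation ℚ)
    have hgt : 1 < v.valuation ℚ γ := not_le.mp hv2
    rw [← iter_eq] at hE
    have key : ∀ k, v.valuation ℚ γ ≤
        v.valuation ℚ ((Pool.Agent.TameArb.ph (φ.map (Int.castRingHom ℚ)))^[k] γ) := by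
      intro k
      induction k with
      | zero => exact le_rfl
      | succ k ih =>
        rw [Function.iterate_succ_apply', h.gt hG (hgt.trans_le ih)]
        exact ih.trans (le_self_pow₀ (hgt.trans_le ih).le (by rw [hdeg]; omega))
    obtain ⟨k, rfl⟩ : ∃ k, n = k + 1 := ⟨n - 1, by omega⟩
    have h1 := key k
    have h2 : v.valuation ℚ γ = v.valuation ℚ
        ((Pool.Agent.TameArb.ph (φ.map (Int.castRingHom ℚ)))^[k] γ) ^
          (φ.map (Int.castRingHom ℚ)).natDegree := by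
      conv_lhs => rw [← hE]
      rw [Function.iterate_succ_apply', h.gt hG (hgt.trans_le h1)]
    have h3 : v.valuation ℚ γ < v.valuation ℚ γ ^ (φ.map (Int.castRingHom ℚ)).natDegree := by
      have : 1 < (φ.map (Int.castRingHom ℚ)).natDegree := by rw [hdeg]; omega
      exact lt_self_pow₀ hgt this
    have h4 : v.valuation ℚ γ ^ (φ.map (Int.castRingHom ℚ)).natDegree ≤ v.valuation ℚ
        ((Pool.Agent.TameArb.ph (φ.map (Int.castRingHom ℚ)))^[k] γ) ^
          (φ.map (Int.castRingHom ℚ)).natDegree := pow_le_pow_left₀ zero_le h1 _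
    rw [← h2] at h4
    exact absurd h3 (not_lt.mpr h4)

end Pool.Agent.Results.MP_63749c_nt.OneNonintegralPoint
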