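import Pool.Agent.Arb.Rat2
import Pool.Agent.NDE.Pol
import Pool.Agent.HTK.Den
import Pool.Agent.PSH.Fin
import Pool.Agent.TFS.Na
import Pool.Agent.TFS.Bij
import Pool.Agent.TFS.RealP
import Pool.Agent.TFS2.PowAll
import Pool.Agent.TFS2.IntOrb2
import Pool.Agent.TFS2.Res
import Pool.Agent.TFS2.Cheb
import Pool.Agent.TFS5.Sup
import Pool.Agent.TFS5.Uni
import Pool.Agent.TFS5.Reach
import Pool.Agent.TFS5.RatC
import Pool.Agent.TFS5.Orb
import Pool.Agent.TFS5.CountD

/-!
# MP_63749c_nt: translates of a polynomial, arbitrary finite sets of nonperiodic points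

We call `AllSets φ` the property that every finite set of nonperiodic points of `K` is
simultaneously nonperiodic modulo a set of primes of positive lower natural density.

For `φ = x ^ d + c` over `ℚ`, with `d ≥ 2` and `c` rational, it holds
(a) if `c = r / s` with `r` and `s` odd;
(b) if `d` is a power of a prime `p` and `p ^ 2` does not divide the denominator of `c`;
(c) if `d` is even and `c ≥ 1`, and if `c = 0`;
(d) if modulo some prime `q` (at which `c` is integral) all residues have `0` among their iterates.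
For every `d ≥ 2` it holds for at least five sixths of the integers `c`, in every interval
`[-6 N, 6 N]`.

For `φ = P + c` over a number field `K`, with `P` of degree `d ≥ 2` and leading coefficient `a`, it
holds if
(i) `P = x ^ d` where `d` is a power of a prime `p`, `|p ^ p c ^ (p - 1)|_v < 1` at some prime `v`
    above `p`, and `0` is not preperiodic;
(ii) `φ` has no fixed point in some real embedding;
(iii) for a prime `l` dividing `d` and a prime `v` at which the coefficients of `P` are integral and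
    `a` is a unit, `|l ^ (d l) c ^ (l - 1)|_v > 1` and `-c / a` is not an `l`-th power in `K_v`;
(iv) at some prime `v` above `p`, `φ` has good reduction, `d` is not a power of `p` and all cycles of
    residues are superattracting, of local degree not a power of `p`.

For every polynomial `P` of degree at least two it holds for 100 per cent of the `c` in `K`, ordered
by height.  For `x ^ 2 + c` over `ℚ` it holds for all `c` except the `c ≤ 1/4` whose denominator is
divisible by four and has only even exponents at odd primes.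
-/

set_option autoImplicit false

open IsDedekindDomain NumberField Polynomial

namespace Pool.Agent.Results.MP_63749c_nt.TranslatesFiniteSets

/-- `γ` is a periodic point of the polynomial map `φ`. -/
def Periodic {K : Type*} [Field K] (φ : K[X]) (γ : K) : Prop :=
  ∃ n : ℕ, 0 < n ∧ (fun x => φ.eval x)^[n] γ = γ

/-- `0` is preperiodic: its forward orbit is finite. -/
def ZeroPreperiodic {K : Type*} [Field K] (φ : K[X]) : Prop :=
  ∃ m n : ℕ, m < n ∧ (fun x => φ.eval x)^[m] 0 = (fun x => φ.eval x)^[n] 0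

/-- `x` is integral at the prime `v`. -/
def IntegralAt {K : Type*} [Field K] [NumberField K] (v : HeightOneSpectrum (𝓞 K)) (x : K) :
    Prop := v.valuation K x ≤ 1

/-- `φ` has good reduction at `v`: its coefficients are integral and its leading coefficient is a
unit at `v`. -/
def GoodAt {K : Type*} [Field K] [NumberField K] (v : HeightOneSpectrum (𝓞 K)) (φ : K[X]) :
    Prop := (∀ i, IntegralAt v (φ.coeff i)) ∧ v.valuation K φ.leadingCoeff = 1

/-- `γ` is periodic modulo the good prime `v` (for `γ` integral at `v`): some iterate of the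
residue class of `γ` is this class again. -/
def PeriodicMod {K : Type*} [Field K] [NumberField K] (v : HeightOneSpectrum (𝓞 K)) (φ : K[X])
    (γ : K) : Prop := ∃ n : ℕ, 0 < n ∧ v.valuation K ((fun x => φ.eval x)^[n] γ - γ) < 1

/-- The cycle of `x` modulo `v` is superattracting, of a local degree that is not a power of `p`:
for some `N ≥ 1` and `e ≥ 2`, where `e` is not a power of `p`, modulo `v` the polynomial
`φ^N (x + t) - x` in `t` has no terms of degree less than `e`, and its coefficient of `t ^ e` is a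
unit. -/
def Superattracting {K : Type*} [Field K] [NumberField K] (v : HeightOneSpectrum (𝓞 K)) (p : ℕ)
    (φ : K[X]) (x : K) : Prop :=
  ∃ N e : ℕ, 0 < N ∧ 0 < e ∧ (∀ k, e ≠ p ^ k) ∧
    (∀ j < e, v.valuation K ((((φ.comp)^[N] X).comp (X + C x) - C x).coeff j) < 1) ∧
    v.valuation K ((((φ.comp)^[N] X).comp (X + C x) - C x).coeff e) = 1

/-- The good primes at which all points of `Γ` are integral and none is periodic modulo `v`. -/
def goodPrimes {K : Type*} [Field K] [NumberField K] (φ : K[X]) (Γ : Finset K) :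
    Set (HeightOneSpectrum (𝓞 K)) :=
  {v | GoodAt v φ ∧ ∀ γ ∈ Γ, IntegralAt v γ ∧ ¬ PeriodicMod v φ γ}

/-- Positive lower natural density: for a constant `c > 0` and all large `x`, at least the proportion
`c` of the primes of norm at most `x` lies in `S`. -/
def PositiveLowerDensity {K : Type*} [Field K] [NumberField K]
    (S : Set (HeightOneSpectrum (𝓞 K))) : Prop :=
  ∃ c : ℝ, 0 < c ∧ ∃ X₀ : ℝ, ∀ x : ℝ, X₀ ≤ x →
    c * ({v : HeightOneSpectrum (𝓞 K) | (Ideal.absNorm v.asIdeal : ℝ) ≤ x}.ncard : ℝ) ≤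
      ({v : HeightOneSpectrum (𝓞 K) | v ∈ S ∧ (Ideal.absNorm v.asIdeal : ℝ) ≤ x}.ncard : ℝ)

/-- Every finite set of nonperiodic points is simultaneously nonperiodic modulo infinitely many
primes, even modulo a set of primes of positive lower density. -/
def AllSets {K : Type*} [Field K] [NumberField K] (φ : K[X]) : Prop :=
  ∀ Γ : Finset K, (∀ γ ∈ Γ, ¬ Periodic φ γ) →
    (goodPrimes φ Γ).Infinite ∧ PositiveLowerDensity (goodPrimes φ Γ)

/-- `Q` holds for 100 per cent of the `x`, ordered by `h`. -/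
def AlmostAll {S : Type} (h : S → ℝ) (Q : S → Prop) : Prop :=
  (∀ B : ℝ, {x | h x ≤ B}.Finite) ∧
    Filter.Tendsto (fun B : ℝ => ({x | h x ≤ B ∧ Q x}.ncard : ℝ) / ({x | h x ≤ B}.ncard : ℝ))
      Filter.atTop (nhds 1)

section

open Pool.Agent.TameArb

theorem iter_eq {K : Type} [Field K] (φ : K[X]) : (ph φ : K → K) = fun x => φ.eval x := by
  funext x
  exact ph_eq_eval φ x

variable {K : Type} [Field K] [NumberField K]

theorem goodPrimes_eq (φ : K[X]) (Γ : Finset K) : goodPrimes φ Γ = GP φ Γ := by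
  have hP : ∀ (v : HeightOneSpectrum (𝓞 K)) (γ : K),
      PeriodicMod v φ γ ↔ PerMod (v.valuation K) φ γ := by
    intro v γ
    rw [PeriodicMod, PerMod, iter_eq]
  ext v
  constructor
  · rintro ⟨h1, h2⟩
    exact ⟨⟨h1.1, h1.2⟩, fun γ hγ => ⟨(h2 γ hγ).1, fun h => (h2 γ hγ).2 ((hP v γ).mpr h)⟩⟩
  · rintro ⟨h1, h2⟩
    exact ⟨⟨h1.int, h1.lead⟩, fun γ hγ => ⟨(h2 γ hγ).1, fun h => (h2 γ hγ).2 ((hP v γ).mp h)⟩⟩

/-- infinitely many good primes: then positive natural density -/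
theorem of_infinite {φ : K[X]} (hd : 2 ≤ φ.natDegree) {Γ : Finset K}
    (h : (goodPrimes φ Γ).Infinite) :
    (goodPrimes φ Γ).Infinite ∧ PositiveLowerDensity (goodPrimes φ Γ) := by
  refine ⟨h, ?_⟩
  have h1 : (GP φ Γ).Nonempty := by
    rw [← goodPrimes_eq]; exact h.nonempty
  rw [goodPrimes_eq]
  exact Pool.Agent.NDE.natDens_iff.1 (Pool.Agent.NDE.nat_poly φ hd Γ h1)

theorem of_posDens {φ : K[X]} (hd : 2 ≤ φ.natDegree) {Γ : Finset K} (h : PosDens (GP φ Γ)) :
    (goodPrimes φ Γ).Infinite ∧ PositiveLowerDensity (goodPrimes φ Γ) := by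
  apply of_infinite hd
  rw [goodPrimes_eq]
  exact h.infinite

theorem height_finite (B : ℝ) : {c : K | Height.mulHeight ![1, c] ≤ B}.Finite := by
  have h1 := Pool.Agent.HFW.aff_finite (K := K) (r := 1) B
  refine (h1.preimage (f := fun (c : K) (_ : Fin 1) => c)
    (fun a _ b _ hab => congrFun hab 0)).subset ?_
  intro c hc
  have e : (Fin.cons 1 (fun _ : Fin 1 => c) : Fin (1 + 1) → K) = ![1, c] := by
    funext i
    fin_cases i <;> rfl
  show Height.mulHeight (Fin.cons 1 (fun _ : Fin 1 => c) : Fin (1 + 1) → K) ≤ B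
  rw [e]
  exact hc

end

/-- the power maps -/
theorem pow_case {d : ℕ} (hd : 2 ≤ d) : AllSets (X ^ d : ℚ[X]) := by
  intro Γ hΓ
  apply of_infinite (by rw [natDegree_X_pow]; exact hd)
  rw [goodPrimes_eq]
  refine (Pool.Agent.TFS2.pow_all hd Γ fun γ hγ n hn h => ?_).infinite
  rw [iter_eq] at h
  exact hΓ γ hγ ⟨n, hn, h⟩

/-- a number that is not a power of `p` has another prime divisor -/
theorem exists_tame {p e : ℕ} (he : e ≠ 0) (h : ∀ k, e ≠ p ^ k) :
    ∃ l : ℕ, l.Prime ∧ l ≠ p ∧ l ∣ e := by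
  by_contra hcon
  push Not at hcon
  exact h _ (Nat.eq_prime_pow_of_unique_prime_dvd he fun {l} hl hle =>
    by_contra fun hne => hcon l hl hne hle)

/-- a prime at which all cycles are superattracting -/
theorem sup_case {K : Type} [Field K] [NumberField K] {φ : K[X]} (hd : 2 ≤ φ.natDegree)
    (v : HeightOneSpectrum (𝓞 K)) {p : ℕ} (hp : p.Prime) (hpv : v.valuation K (p : K) < 1)
    (hdp : ∀ k, φ.natDegree ≠ p ^ k) (hG : GoodAt v φ)
    (h : ∀ x : K, IntegralAt v x → PeriodicMod v φ x → Superattracting v p φ x) : AllSets φ := by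
  intro Γ hΓ
  apply of_infinite hd
  rw [goodPrimes_eq]
  refine Pool.Agent.TFS5.infinite_sup hd v ⟨hG.1, hG.2⟩ hp hpv (exists_tame (by omega) hdp)
    (fun x hx hper => ?_) Γ fun γ hγ n hn h => ?_
  · obtain ⟨N, e, hN, he, hep, h1, h2⟩ := h x hx hper
    have he1 : e ≠ 1 := fun h => hep 0 (by rw [h, pow_zero])
    exact ⟨N, e, hN, by omega, exists_tame he.ne' hep, h1, h2⟩
  · rw [iter_eq] at h
    exact hΓ γ hγ ⟨n, hn, h⟩

/-- `x ^ d + c` over the rational numbers, if all residues reach zero -/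
theorem reach_case {d : ℕ} (hd : 2 ≤ d) (c : ℚ) {q : ℕ} (hq : q.Prime) (hdq : ∀ k, d ≠ q ^ k)
    (v : HeightOneSpectrum (𝓞 ℚ)) (hqv : v.valuation ℚ (q : ℚ) < 1) (hc1 : v.valuation ℚ c ≤ 1)
    (h : ∀ x : ℚ, v.valuation ℚ x ≤ 1 →
      ∃ n, v.valuation ℚ ((fun y => (X ^ d + C c : ℚ[X]).eval y)^[n] x) < 1) :
    AllSets (X ^ d + C c : ℚ[X]) := by
  have hn : (X ^ d + C c : ℚ[X]).natDegree = d := natDegree_X_pow_add_C
  have hG : GoodAt v (X ^ d + C c : ℚ[X]) := by
    refine ⟨fun i => ?_, ?_⟩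
    · show v.valuation ℚ _ ≤ 1
      rw [coeff_add, coeff_X_pow, coeff_C]
      refine Valuation.map_add_le _ ?_ ?_
      · split_ifs
        · rw [map_one]
        · rw [map_zero]
          exact zero_le_one
      · split_ifs
        · exact hc1
        · rw [map_zero]
          exact zero_le_one
    · rw [leadingCoeff_X_pow_add_C (by omega), map_one]
  intro Γ hΓ
  have hd' : 2 ≤ (X ^ d + C c : ℚ[X]).natDegree := by rw [hn]; exact hd
  apply of_infinite hd'
  rw [goodPrimes_eq]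
  obtain ⟨l, hl, hlq, hld⟩ := exists_tame (by omega : d ≠ 0) hdq
  refine Pool.Agent.TFS5.infinite_sup hd' v ⟨hG.1, hG.2⟩ hq hqv ⟨l, hl, hlq, by rw [hn]; exact hld⟩
    (fun x hx hper => ?_) Γ fun γ hγ n hn h => ?_
  · obtain ⟨N, e, hN, he, hde, h1, h2⟩ := Pool.Agent.TFS5.sup_uni' hd' v ⟨hG.1, hG.2⟩ hq hqv
      (fun i hi hi' => by
        rw [hn] at hi'
        rw [coeff_add, coeff_X_pow, coeff_C, if_neg (by omega), if_neg (by omega), add_zero,
          map_zero]
        exact zero_lt_one) h x hx hper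
    rw [hn] at hde
    exact ⟨N, e, hN, he, ⟨l, hl, hlq, hld.trans hde⟩, h1, h2⟩
  · rw [iter_eq] at h
    exact hΓ γ hγ ⟨n, hn, h⟩

/-- the maps `x ^ d - 1` over the rational numbers -/
theorem minus_one {d : ℕ} (hd : 2 ≤ d) (he : Even d) (h3 : ¬ 3 ∣ d) :
    AllSets (X ^ d + C (-1) : ℚ[X]) := by
  have hn : (X ^ d + C (-1) : ℚ[X]).natDegree = d := natDegree_X_pow_add_C
  obtain ⟨v, hv⟩ := Pool.Agent.TFS2.exists_three
  intro Γ hΓ
  apply of_infinite (by rw [hn]; exact hd)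
  rw [goodPrimes_eq]
  refine Pool.Agent.TFS2.infinite_res (by rw [hn]; exact hd) (by rw [hn]; exact he)
    (by rw [hn]; exact h3) v hv (fun i => ?_) Γ fun γ hγ n hn h => ?_
  · rw [hn, sub_self, coeff_zero, map_zero]
    exact zero_lt_one
  · rw [iter_eq] at h
    exact hΓ γ hγ ⟨n, hn, h⟩

/-- the Chebyshev polynomial of degree two -/
theorem cheb_case : AllSets (X ^ 2 + C (-2) : ℚ[X]) := by
  have e : (X ^ 2 + C (-2) : ℚ[X]) = X ^ 2 - C 2 := by
    rw [map_neg, ← sub_eq_add_neg]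
  intro Γ hΓ
  apply of_infinite (by rw [natDegree_X_pow_add_C])
  rw [goodPrimes_eq, e]
  refine (Pool.Agent.TFS2.cheb_all Γ fun γ hγ n hn h => ?_).infinite
  rw [← e, iter_eq] at h
  exact hΓ γ hγ ⟨n, hn, h⟩

/-- the integer families -/
theorem int_case (p k : ℕ) (hp : p.Prime) (hk : 0 < k) (c : ℤ) :
    AllSets (X ^ p ^ k + C (c : ℚ) : ℚ[X]) := by
  have hpk : 2 ≤ p ^ k := by
    calc 2 ≤ p := hp.two_le
      _ ≤ p ^ k := Nat.le_self_pow hk.ne' p
  by_cases hc2 : c = -2 ∧ p ^ k = 2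
  · obtain ⟨rfl, h⟩ := hc2
    rw [h]
    have e : (((-2 : ℤ)) : ℚ) = -2 := by norm_num
    rw [e]
    exact cheb_case
  have h2 : c = -2 → p ^ k ≠ 2 := fun h h' => hc2 ⟨h, h'⟩
  by_cases hc0 : c = 0
  · subst hc0
    rw [Int.cast_zero, C_0, add_zero]
    exact pow_case hpk
  by_cases hc1 : c = -1 ∧ p = 2
  · obtain ⟨rfl, rfl⟩ := hc1
    have h3 : ¬ 3 ∣ 2 ^ k := by
      intro h
      have h4 := Nat.prime_three.dvd_of_dvd_pow h
      omega
    have he : Even (2 ^ k) := (Nat.even_pow.2 ⟨even_two, hk.ne'⟩)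
    have h5 := minus_one hpk he h3
    have e : (((-1 : ℤ)) : ℚ) = -1 := by norm_num
    rw [e]
    exact h5
  have hodd : c = -1 → Odd (p ^ k) := by
    intro h
    have hp2 : p ≠ 2 := fun h' => hc1 ⟨h, h'⟩
    exact (hp.odd_of_ne_two hp2).pow
  have h3 : c = -2 → 3 ≤ p ^ k := by
    intro h
    have := h2 h
    omega
  intro Γ hΓ
  have hd' : 2 ≤ (X ^ p ^ k + C (c : ℚ) : ℚ[X]).natDegree := by
    rw [natDegree_X_pow_add_C]
    exact hpk
  obtain ⟨v, hv, -⟩ := Pool.Agent.Arb.exists_at_prime hp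
  have hv1 : v.valuation ℚ (p : ℚ) < 1 := by
    rw [hv, ← WithZero.exp_zero, WithZero.exp_lt_exp]
    norm_num
  have hc1' : v.valuation ℚ (c : ℚ) ≤ 1 := by
    have h := v.valuation_le_one (K := ℚ) (c : 𝓞 ℚ)
    have e : algebraMap (𝓞 ℚ) ℚ (c : 𝓞 ℚ) = (c : ℚ) := map_intCast (algebraMap (𝓞 ℚ) ℚ) c
    have h' : v.valuation ℚ (algebraMap (𝓞 ℚ) ℚ (c : 𝓞 ℚ)) ≤ 1 := h
    rwa [e] at h'
  have hq : (Pool.Agent.TameArb.ph (X ^ p ^ k + C (c : ℚ) : ℚ[X]) : ℚ → ℚ) =
      fun x => x ^ p ^ k + (c : ℚ) := by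
    rw [iter_eq]
    funext x
    simp
  apply of_posDens hd'
  refine Pool.Agent.TFS.dens_bij p hp k hk (c : ℚ) v hv1 ?_ ?_ Γ ?_
  · rw [map_mul, map_pow, map_pow]
    refine mul_lt_one_of_lt_of_le ?_ (pow_le_one₀ zero_le hc1')
    exact pow_lt_one₀ zero_le hv1 hp.ne_zero
  · intro i j hij
    rw [hq]
    exact Pool.Agent.TFS2.int_orbit2 hpk hc0 hodd h3 i j hij
  · intro γ hγ n hn h
    rw [iter_eq] at h
    exact hΓ γ hγ ⟨n, hn, h⟩

/-- even degree and `c` at least one: no real fixed point -/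
theorem real_case {d : ℕ} (hd : 2 ≤ d) (he : Even d) (c : ℚ) (hc : 1 ≤ c) :
    AllSets (X ^ d + C c : ℚ[X]) := by
  intro Γ hΓ
  have hn : (X ^ d + C c : ℚ[X]).natDegree = d := natDegree_X_pow_add_C
  refine of_posDens (by rw [hn]; exact hd) (Pool.Agent.TFS.RealP.dens_real _ (by rw [hn]; exact hd)
    (algebraMap ℚ ℝ) (fun x h => ?_) Γ)
  have hc' : (1 : ℝ) ≤ (c : ℝ) := by exact_mod_cast hc
  rw [Polynomial.map_add, Polynomial.map_pow, map_X, map_C, eval_add, eval_pow, eval_X, eval_C]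
    at h
  have e : algebraMap ℚ ℝ c = (c : ℝ) := by simp
  rw [e] at h
  rcases le_or_gt 1 x with h1 | h1
  · have h2 : x ^ 1 ≤ x ^ d := pow_le_pow_right₀ h1 (by omega)
    rw [pow_one] at h2
    linarith
  · have h2 : 0 ≤ x ^ d := he.pow_nonneg x
    linarith

/-- the prime powers, rational `c` -/
theorem pp_case (p k : ℕ) (hp : p.Prime) (hk : 0 < k) (c : ℚ) (hc : ¬ p ^ 2 ∣ c.den) :
    AllSets (X ^ p ^ k + C c : ℚ[X]) := by
  by_cases hden : c.den = 1
  · have e : c = ((c.num : ℤ) : ℚ) := ((Rat.den_eq_one_iff c).1 hden).symm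
    rw [e]
    exact int_case p k hp hk c.num
  have hpk : 2 ≤ p ^ k := by
    calc 2 ≤ p := hp.two_le
      _ ≤ p ^ k := Nat.le_self_pow hk.ne' p
  intro Γ hΓ
  have hd' : 2 ≤ (X ^ p ^ k + C c : ℚ[X]).natDegree := by
    rw [natDegree_X_pow_add_C]
    exact hpk
  obtain ⟨v, hv, hz⟩ := Pool.Agent.Arb.exists_at_prime hp
  have hint : ∀ z : ℤ, v.valuation ℚ (z : ℚ) ≤ 1 := by
    intro z
    have h := v.valuation_le_one (K := ℚ) (z : 𝓞 ℚ)
    have e : algebraMap (𝓞 ℚ) ℚ (z : 𝓞 ℚ) = (z : ℚ) := map_intCast (algebraMap (𝓞 ℚ) ℚ) z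
    have h' : v.valuation ℚ (algebraMap (𝓞 ℚ) ℚ (z : 𝓞 ℚ)) ≤ 1 := h
    rwa [e] at h'
  have hv1 : v.valuation ℚ (p : ℚ) < 1 := by
    rw [hv, ← WithZero.exp_zero, WithZero.exp_lt_exp]
    norm_num
  have hpc : v.valuation ℚ ((p : ℚ) * c) ≤ 1 := by
    by_cases hpd : p ∣ c.den
    · obtain ⟨m, hm⟩ := hpd
      have hpm : ¬ (p : ℤ) ∣ (m : ℤ) := by
        intro h
        obtain ⟨m', hm'⟩ := Int.natCast_dvd_natCast.1 h
        exact hc ⟨m', by rw [hm, hm']; ring⟩
      have hm1 := hz m hpm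
      have hm0 : (m : ℚ) ≠ 0 := by
        intro h0
        have : c.den = 0 := by rw [hm, show m = 0 by exact_mod_cast h0, mul_zero]
        exact c.den_ne_zero this
      have e : (p : ℚ) * c * ((m : ℤ) : ℚ) = ((c.num : ℤ) : ℚ) := by
        have h1 := Rat.mul_den_eq_num c
        rw [hm] at h1
        push_cast at h1 ⊢
        linear_combination h1
      have h2 := hint c.num
      rw [← e, map_mul, hm1, mul_one] at h2
      exact h2
    · have hpd' : ¬ (p : ℤ) ∣ (c.den : ℤ) := fun h => hpd (Int.natCast_dvd_natCast.1 h)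
      have hd1 := hz c.den hpd'
      have e : c * ((c.den : ℤ) : ℚ) = ((c.num : ℤ) : ℚ) := by
        have h1 := Rat.mul_den_eq_num c
        exact_mod_cast h1
      have h2 := hint c.num
      rw [← e, map_mul, hd1, mul_one] at h2
      rw [map_mul]
      exact mul_le_one' hv1.le h2
  have hq : (Pool.Agent.TameArb.ph (X ^ p ^ k + C c : ℚ[X]) : ℚ → ℚ) = fun x => x ^ p ^ k + c := by
    rw [iter_eq]
    funext x
    simp
  apply of_posDens hd'
  refine Pool.Agent.TFS.dens_bij p hp k hk c v hv1 ?_ ?_ Γ ?_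
  · have e : (p : ℚ) ^ p * c ^ (p - 1) = p * ((p : ℚ) * c) ^ (p - 1) := by
      obtain ⟨m, rfl⟩ : ∃ m, p = m + 1 := ⟨p - 1, by have := hp.pos; omega⟩
      rw [Nat.add_sub_cancel, pow_succ, mul_pow]
      ring
    rw [e, map_mul, map_pow]
    exact mul_lt_one_of_lt_of_le hv1 (pow_le_one' hpc _)
  · intro i j hij
    rw [hq]
    exact Pool.Agent.TFS5.orb_nonint hpk c hden i j hij
  · intro γ hγ n hn h
    rw [iter_eq] at h
    exact hΓ γ hγ ⟨n, hn, h⟩

/-- all residues modulo `q` have `0` among their iterates -/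
theorem residue_case {d : ℕ} (hd : 2 ≤ d) (c : ℚ) (q : ℕ) (r : ℤ) (hq : q.Prime)
    (hr : (q : ℤ) ∣ c.num - r * c.den)
    (h : ∀ z : ℤ, ∃ n, (q : ℤ) ∣ (fun y : ℤ => y ^ d + r)^[n] z) :
    AllSets (X ^ d + C c : ℚ[X]) := by
  have hqd : ¬ q ∣ c.den := by
    intro h1
    have h2 : (q : ℤ) ∣ (c.den : ℤ) := Int.natCast_dvd_natCast.2 h1
    have h3 : (q : ℤ) ∣ c.num := by
      have h4 := dvd_add hr (h2.mul_left r)
      rwa [sub_add_cancel] at h4
    have h5 : q ∣ c.num.natAbs := Int.natCast_dvd.1 h3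
    have h6 := Nat.dvd_gcd h5 h1
    rw [c.reduced] at h6
    exact hq.one_lt.ne' (Nat.dvd_one.1 h6)
  by_cases hdq : ∃ k, d = q ^ k
  · obtain ⟨k, rfl⟩ := hdq
    refine pp_case q k hq ?_ c fun h1 => hqd ((dvd_pow_self q two_ne_zero).trans h1)
    rcases Nat.eq_zero_or_pos k with rfl | hk
    · rw [pow_zero] at hd
      omega
    · exact hk
  · obtain ⟨v, hqv, hcv, h1⟩ := Pool.Agent.TFS5.reach_rat c r q hq hqd hr h
    exact reach_case hd c hq (fun k hk => hdq ⟨k, hk⟩) v hqv hcv h1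

/-- the families over the rational numbers -/
theorem fam_case {d : ℕ} (hd : 2 ≤ d) (c : ℚ)
    (h : (Odd c.num ∧ Odd c.den) ∨ (∃ p k : ℕ, p.Prime ∧ d = p ^ k ∧ ¬ p ^ 2 ∣ c.den) ∨
      (Even d ∧ 1 ≤ c) ∨ c = 0 ∨
      ∃ (q : ℕ) (r : ℤ), q.Prime ∧ (q : ℤ) ∣ c.num - r * c.den ∧
        ∀ z : ℤ, ∃ n : ℕ, (q : ℤ) ∣ (fun y : ℤ => y ^ d + r)^[n] z) :
    AllSets (X ^ d + C c : ℚ[X]) := by
  rcases h with ⟨hn, hdn⟩ | ⟨p, k, hp, rfl, hc⟩ | ⟨he, hc⟩ | rfl | ⟨q, r, hq, hr, h⟩
  · refine residue_case hd c 2 1 Nat.prime_two ?_ (Pool.Agent.TFS5.int_two 1 odd_one)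
    have h1 : Odd (c.den : ℤ) := by exact_mod_cast hdn
    have h2 : Even (c.num - 1 * (c.den : ℤ)) := by
      rw [one_mul]
      exact hn.sub_odd h1
    exact_mod_cast h2.two_dvd
  · refine pp_case p k hp ?_ c hc
    rcases Nat.eq_zero_or_pos k with rfl | hk
    · rw [pow_zero] at hd
      omega
    · exact hk
  · exact real_case hd he c hc
  · rw [C_0, add_zero]
    exact pow_case hd
  · exact residue_case hd c q r hq hr h

/-- an integer `c` and a prime `q` -/
theorem int_res {d : ℕ} (hd : 2 ≤ d) (c : ℤ) (q : ℕ) (hq : q.Prime)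
    (h : ∀ z : ℤ, ∃ n : ℕ, (q : ℤ) ∣ (fun y : ℤ => y ^ d + c)^[n] z) :
    AllSets (X ^ d + C (c : ℚ) : ℚ[X]) := by
  refine residue_case hd c q c hq ?_ h
  rw [Rat.num_intCast, Rat.den_intCast, Nat.cast_one, mul_one, sub_self]
  exact dvd_zero _

theorem result :
    (∀ d : ℕ, 2 ≤ d → ∀ c : ℚ,
      ((Odd c.num ∧ Odd c.den) ∨ (∃ p k : ℕ, p.Prime ∧ d = p ^ k ∧ ¬ p ^ 2 ∣ c.den) ∨
        (Even d ∧ 1 ≤ c) ∨ c = 0 ∨
        ∃ (q : ℕ) (r : ℤ), q.Prime ∧ (q : ℤ) ∣ c.num - r * c.den ∧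
          ∀ z : ℤ, ∃ n : ℕ, (q : ℤ) ∣ (fun y : ℤ => y ^ d + r)^[n] z) →
      AllSets (X ^ d + C c : ℚ[X])) ∧
    (∀ d : ℕ, 2 ≤ d → ∀ N : ℕ, 5 * (12 * N + 1) ≤
      6 * {c : ℤ | |c| ≤ 6 * N ∧ AllSets (X ^ d + C (c : ℚ) : ℚ[X])}.ncard) ∧
    (∀ (K : Type) [Field K] [NumberField K] (P : K[X]) (c : K), 2 ≤ P.natDegree →
      ((∃ p k : ℕ, p.Prime ∧ P = X ^ p ^ k ∧ ¬ ZeroPreperiodic (P + C c) ∧
          ∃ v : HeightOneSpectrum (𝓞 K), v.valuation K (p : K) < 1 ∧
            v.valuation K ((p : K) ^ p * c ^ (p - 1)) < 1) ∨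
        (∃ ρ : K →+* ℝ, ∀ x : ℝ, ((P + C c).map ρ).eval x ≠ x) ∨
        (∃ l : ℕ, l.Prime ∧ l ∣ P.natDegree ∧ ∃ v : HeightOneSpectrum (𝓞 K), GoodAt v P ∧
          1 < v.valuation K ((l : K) ^ (P.natDegree * l) * c ^ (l - 1)) ∧
          ∀ x : v.adicCompletion K,
            x ^ l ≠ algebraMap K (v.adicCompletion K) (-c / P.leadingCoeff)) ∨
        (∃ (p : ℕ) (v : HeightOneSpectrum (𝓞 K)), p.Prime ∧ v.valuation K (p : K) < 1 ∧
          (∀ k : ℕ, P.natDegree ≠ p ^ k) ∧ GoodAt v (P + C c) ∧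
          ∀ x : K, IntegralAt v x → PeriodicMod v (P + C c) x →
            Superattracting v p (P + C c) x)) →
      AllSets (P + C c)) ∧
    (∀ (K : Type) [Field K] [NumberField K] (P : K[X]), 2 ≤ P.natDegree →
      AlmostAll (fun c : K => Height.mulHeight ![1, c]) fun c => AllSets (P + C c)) ∧
    (∀ c : ℚ, (¬ 4 ∣ c.den ∨ 1 / 4 < c ∨
        ∃ p : ℕ, p.Prime ∧ p ≠ 2 ∧ Odd (c.den.factorization p)) →
      AllSets (X ^ 2 + C c : ℚ[X])) := by
  refine ⟨fun d hd c hc => fam_case hd c hc, fun d hd N => ?_, ?_, ?_, ?_⟩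
  · exact Pool.Agent.TFS5.five_sixths_d (fun c => AllSets (X ^ d + C (c : ℚ) : ℚ[X])) (d := d)
      (by rw [Int.cast_zero, C_0, add_zero]; exact pow_case hd)
      (fun c hc => int_res hd c 2 Nat.prime_two (Pool.Agent.TFS5.int_two c hc))
      (fun ho c hc => int_res hd c 3 Nat.prime_three (Pool.Agent.TFS5.int_three ho c hc))
      (fun he c hc => real_case hd he c (by exact_mod_cast hc))
      (fun he c hc => int_res hd c 3 Nat.prime_three (Pool.Agent.TFS5.int_three' he c hc))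
      N
  · intro K _ _ P c hd hcond
    rcases hcond with hcond | hcond | hcond | ⟨p, v, hp, hpv, hdp, hG, hv⟩
    · obtain ⟨p, k, hp, hP, h0, v, hv, h1⟩ := hcond
      intro Γ hΓ
      have hd' : 2 ≤ (P + C c).natDegree := by rw [natDegree_add_C]; exact hd
      apply of_posDens hd'
      subst hP
      have hk : 0 < k := by
        rcases Nat.eq_zero_or_pos k with rfl | hk
        · rw [pow_zero, pow_one, natDegree_X] at hd
          omega
        · exact hk
      refine Pool.Agent.TFS.dens_bij p hp k hk c v hv h1 ?_ Γ ?_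
      · intro i j hij h
        rw [iter_eq] at h
        exact h0 ⟨i, j, hij, h⟩
      · intro γ hγ n hn h
        rw [iter_eq] at h
        exact hΓ γ hγ ⟨n, hn, h⟩
    · obtain ⟨ρ, hρ⟩ := hcond
      intro Γ hΓ
      have hd' : 2 ≤ (P + C c).natDegree := by rw [natDegree_add_C]; exact hd
      exact of_posDens hd' (Pool.Agent.TFS.RealP.dens_real _ hd' ρ hρ Γ)
    · obtain ⟨l, hl, hld, v, hv, h1, h2⟩ := hcond
      intro Γ hΓ
      have hd' : 2 ≤ (P + C c).natDegree := by rw [natDegree_add_C]; exact hd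
      exact of_posDens hd' (Pool.Agent.TFS.dens_na P hd v hv.1 hv.2 l hl hld c h1 h2 Γ)
    · have hn : (P + C c).natDegree = P.natDegree := natDegree_add_C
      exact sup_case (by rw [hn]; exact hd) v hp hpv (by rw [hn]; exact hdp) hG hv
  · intro K _ _ P hd
    refine ⟨height_finite, Pool.Agent.HFW.tendsto_of_den _ _ height_finite fun ε hε => ?_⟩
    obtain ⟨B₀, h1⟩ := Pool.Agent.PSH.height_shift P hd ε hε
    refine ⟨B₀, fun B hB => le_trans (Nat.cast_le.2 (Set.ncard_le_ncard ?_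
      ((height_finite B).subset fun a ha => ha.1))) (h1 B hB)⟩
    rintro c ⟨hc, hc'⟩
    refine ⟨hc, fun h2 => hc' fun Γ _ => of_posDens ?_ (h2 Γ)⟩
    rw [natDegree_add_C]
    exact hd
  · intro c hc
    by_cases h2 : c = -2
    · subst h2
      exact cheb_case
    by_cases h0 : c = 0
    · subst h0
      rw [C_0, add_zero]
      exact pow_case le_rfl
    by_cases h1 : c = -1
    · subst h1
      exact minus_one le_rfl even_two (by norm_num)
    intro Γ hΓ
    have hd : 2 ≤ (X ^ 2 + C c : ℚ[X]).natDegree := by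
      rw [natDegree_X_pow_add_C]
    have hq : (fun x => (X ^ 2 + C c : ℚ[X]).eval x) = Pool.Agent.Arb.qm c := by
      funext x
      simp [Pool.Agent.Arb.qm]
    apply of_infinite hd
    have h3 := Pool.Agent.Arb.nonperiodic_rat' c h0 h1 h2 hc Γ (by
      intro γ hγ n hn h
      exact hΓ γ hγ ⟨n, hn, by rw [hq]; exact h⟩)
    refine h3.mono ?_
    rintro v ⟨hv1, hv2⟩
    refine ⟨⟨fun i => ?_, ?_⟩, fun γ hγ => ⟨(hv2 γ hγ).1, ?_⟩⟩
    · show v.valuation ℚ _ ≤ 1
      rw [coeff_add, coeff_X_pow, coeff_C]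
      refine Valuation.map_add_le _ ?_ ?_
      · split_ifs
        · rw [map_one]
        · rw [map_zero]
          exact zero_le_one
      · split_ifs
        · exact hv1
        · rw [map_zero]
          exact zero_le_one
    · rw [leadingCoeff_X_pow_add_C (by norm_num), map_one]
    · rintro ⟨n, hn, h⟩
      rw [hq] at h
      exact (hv2 γ hγ).2 n hn h

end Pool.Agent.Results.MP_63749c_nt.TranslatesFiniteSets
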